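import Pool.Agent.Helper92.FR.GoalsA

/-!
# Packet FR-DEP
-/

namespace Pool.Agent.Helper52.FR

open MeasureTheory Pool.Agent.Helper92.FR

lemma depK (t : ℝ) (ht : 0 ≤ t) :
    4 / 10 ^ 4 * t ^ 2 - 4 / 10 ^ 11 * t ^ 4 ≤ t / 2 := by
  have h : 0 ≤ 1 - 8 / 10 ^ 4 * t + 8 / 10 ^ 11 * t ^ 3 := by
    have h1 : 0 ≤ (t - 1830) ^ 2 * (t + 3660) := by positivity
    nlinarith [h1, ht]
  nlinarith [mul_nonneg ht h]

lemma depP (x : ℝ) :
    2 / 10 ^ 4 * (7 / 20000 * x ^ 2 + x / 2 - 4 / 10 ^ 11 * x ^ 4 - 2 / 10 ^ 6) ≤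
      (Set.Ioi (2 / 10 ^ 6 : ℝ)).indicator (fun _ => (1 : ℝ)) x := by
  by_cases hx : x ∈ Set.Ioi (2 / 10 ^ 6 : ℝ)
  · rw [Set.indicator_of_mem hx]
    have hx' : (2 / 10 ^ 6 : ℝ) < x := hx
    have h0 : 0 ≤ x := by linarith [show (0 : ℝ) ≤ 2 / 10 ^ 6 by norm_num]
    have := depK x h0
    nlinarith [sq_nonneg (x - 10000)]
  · rw [Set.indicator_of_notMem hx]
    have hx' : x ≤ (2 / 10 ^ 6 : ℝ) := not_lt.mp hx
    rcases le_total 0 x with h0 | h0
    · nlinarith [mul_nonneg h0 h0, pow_nonneg h0 4, mul_le_mul hx' hx' h0 (by norm_num : (0:ℝ) ≤ 2 / 10 ^ 6)]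
    · have := depK (-x) (by linarith)
      nlinarith [sq_nonneg x]

theorem dep : DepStmt := by
  intro ν hν hi1 hi2 hb1 hb2 hm hv
  have hexp : ∀ (x : ℝ) (n : ℕ), (|x| / 4) ^ n / (n.factorial : ℝ) ≤
      Real.exp (x / 4) + Real.exp (-x / 4) := by
    intro x n
    refine (Real.pow_div_factorial_le_exp (|x| / 4) (by positivity) n).trans ?_
    rcases le_total 0 x with h | h
    · rw [abs_of_nonneg h]; linarith [Real.exp_pos (-x / 4)]
    · rw [abs_of_nonpos h]; linarith [Real.exp_pos (x / 4)]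
  have hsum : Integrable (fun x => Real.exp (x / 4) + Real.exp (-x / 4)) ν := hi1.add hi2
  have hsumle : ∫ x, (Real.exp (x / 4) + Real.exp (-x / 4)) ∂ν ≤ 8 := by
    rw [integral_add hi1 hi2]; linarith
  have h4le : ∀ x : ℝ, x ^ 4 ≤ 6144 * (Real.exp (x / 4) + Real.exp (-x / 4)) := by
    intro x
    have := hexp x 4
    have e1 : (|x| / 4) ^ 4 / ((4 : ℕ).factorial : ℝ) = x ^ 4 / 6144 := by
      rw [div_pow, show |x| ^ 4 = x ^ 4 by
        rw [show |x| ^ 4 = (|x| ^ 2) ^ 2 by ring, sq_abs]; ring]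
      norm_num [Nat.factorial]; ring
    rw [e1] at this
    linarith
  have h2le : ∀ x : ℝ, x ^ 2 ≤ 32 * (Real.exp (x / 4) + Real.exp (-x / 4)) := by
    intro x
    have := hexp x 2
    have e1 : (|x| / 4) ^ 2 / ((2 : ℕ).factorial : ℝ) = x ^ 2 / 32 := by
      rw [div_pow, sq_abs]; norm_num [Nat.factorial]; ring
    rw [e1] at this
    linarith
  have h1le : ∀ x : ℝ, |x| ≤ 4 * (Real.exp (x / 4) + Real.exp (-x / 4)) := by
    intro x
    have := hexp x 1
    simp only [pow_one, Nat.factorial, Nat.cast_one, div_one] at this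
    norm_num at this ⊢
    linarith
  have i4 : Integrable (fun x : ℝ => x ^ 4) ν := by
    refine Integrable.mono' (hsum.const_mul 6144) (by fun_prop) ?_
    refine Filter.Eventually.of_forall fun x => ?_
    rw [Real.norm_eq_abs, abs_of_nonneg (by positivity)]
    exact h4le x
  have i2 : Integrable (fun x : ℝ => x ^ 2) ν := by
    refine Integrable.mono' (hsum.const_mul 32) (by fun_prop) ?_
    refine Filter.Eventually.of_forall fun x => ?_
    rw [Real.norm_eq_abs, abs_of_nonneg (by positivity)]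
    exact h2le x
  have i1 : Integrable (fun x : ℝ => x) ν := by
    refine Integrable.mono' (hsum.const_mul 4) (by fun_prop) ?_
    refine Filter.Eventually.of_forall fun x => ?_
    rw [Real.norm_eq_abs]
    exact h1le x
  have e4 : ∫ x, x ^ 4 ∂ν ≤ 49152 := by
    calc ∫ x, x ^ 4 ∂ν ≤ ∫ x, 6144 * (Real.exp (x / 4) + Real.exp (-x / 4)) ∂ν :=
          integral_mono i4 (hsum.const_mul 6144) h4le
      _ = 6144 * ∫ x, (Real.exp (x / 4) + Real.exp (-x / 4)) ∂ν := integral_const_mul _ _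
      _ ≤ 49152 := by linarith
  have hms : MeasurableSet (Set.Ioi (2 / 10 ^ 6 : ℝ)) := measurableSet_Ioi
  have iind : Integrable ((Set.Ioi (2 / 10 ^ 6 : ℝ)).indicator (fun _ => (1 : ℝ))) ν :=
    (integrable_const 1).indicator hms
  have iP : Integrable (fun x : ℝ =>
      2 / 10 ^ 4 * (7 / 20000 * x ^ 2 + x / 2 - 4 / 10 ^ 11 * x ^ 4 - 2 / 10 ^ 6)) ν := by
    refine Integrable.const_mul ?_ _
    exact (((i2.const_mul _).add (i1.div_const _)).sub (i4.const_mul _)).sub (integrable_const _)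
  have hle := integral_mono iP iind depP
  have hind : ∫ x, (Set.Ioi (2 / 10 ^ 6 : ℝ)).indicator (fun _ => (1 : ℝ)) x ∂ν =
      ν.real (Set.Ioi (2 / 10 ^ 6 : ℝ)) := by
    rw [integral_indicator hms]; simp [Measure.real]
  have hP : ∫ x, 2 / 10 ^ 4 * (7 / 20000 * x ^ 2 + x / 2 - 4 / 10 ^ 11 * x ^ 4 - 2 / 10 ^ 6) ∂ν =
      2 / 10 ^ 4 * (7 / 20000 * ∫ x, x ^ 2 ∂ν - 4 / 10 ^ 11 * ∫ x, x ^ 4 ∂ν - 2 / 10 ^ 6) := by
    rw [integral_const_mul]
    congr 1
    have a1 : Integrable (fun x : ℝ => 7 / 20000 * x ^ 2) ν := i2.const_mul _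
    have a2 : Integrable (fun x : ℝ => x / 2) ν := i1.div_const _
    have a3 : Integrable (fun x : ℝ => 4 / 10 ^ 11 * x ^ 4) ν := i4.const_mul _
    have a4 : Integrable (fun x : ℝ => 7 / 20000 * x ^ 2 + x / 2) ν := a1.add a2
    have a5 : Integrable (fun x : ℝ => 7 / 20000 * x ^ 2 + x / 2 - 4 / 10 ^ 11 * x ^ 4) ν :=
      a4.sub a3
    rw [integral_sub a5 (integrable_const _), integral_sub a4 a3, integral_add a1 a2,
      integral_const_mul, integral_const_mul, integral_div, hm]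
    simp
  rw [hind, hP] at hle
  have hfin : (1 / 10 ^ 14 : ℝ) ≤ ν.real (Set.Ioi (2 / 10 ^ 6 : ℝ)) := by
    refine le_trans ?_ hle
    nlinarith [hv, e4]
  rw [Measure.real] at hfin
  exact (ENNReal.ofReal_le_iff_le_toReal (measure_ne_top _ _)).mpr hfin

end Pool.Agent.Helper52.FR
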